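import Mathlib
import Pool.Agent.H80.HilbDefs
import Pool.Agent.H80.HilbEx

open Pool.Agent.H80.Hilb

theorem Pool.Agent.Results.MP_d4b31a_ag.SmallComponent.result (k : Type) [Field k]
    [IsAlgClosed k] :
    ∃ O : Subalgebra k (Polynomial k), O.FG ∧ ringKrullDim O = 1 ∧ ∃ d : ℕ, 1 ≤ d ∧
      ∃ Z ∈ irreducibleComponents (Pts k O d), topologicalKrullDim Z < d :=
  main k
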